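import Pool.Agent.Lib_helper16.RA.Basics

/-!
Block E of MP_20f8ce_gt: linear maps which preserve the Lorentzian form preserve the volume.
-/

open MeasureTheory Finset

namespace Pool.Agent.RA.Cusp

section det
variable {n : ℕ}

/-- the Euclidean scalar product -/
def dotE (x y : M n) : ℝ := (∑ i, x.1 i * y.1 i) + x.2 * y.2

/-- change of the sign of the time coordinate -/
def J : M n →ₗ[ℝ] M n where
  toFun x := (x.1, -x.2)
  map_add' x y := by ext <;> simp [add_comm]
  map_smul' c x := by ext <;> simp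

lemma B_eq_dotE (x y : M n) : B x y = dotE x (J y) := by
  simp [B, dotE, J, sub_eq_add_neg]

lemma J_J : (J : M n →ₗ[ℝ] M n) ∘ₗ J = LinearMap.id := by
  ext x <;> simp [J]

/-- the standard basis -/
noncomputable def bas (n : ℕ) : Module.Basis (Fin n ⊕ Unit) ℝ (M n) :=
  (Pi.basisFun ℝ (Fin n)).prod (Module.Basis.singleton Unit ℝ)

lemma bas_repr_inl (x : M n) (i : Fin n) : (bas n).repr x (Sum.inl i) = x.1 i := by
  simp [bas]

lemma bas_repr_inr (x : M n) (i : Unit) : (bas n).repr x (Sum.inr i) = x.2 := by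
  simp [bas]

lemma sum_repr (x y : M n) :
    ∑ p, (bas n).repr x p * (bas n).repr y p = dotE x y := by
  rw [Fintype.sum_sum_type]
  simp [bas_repr_inl, bas_repr_inr, dotE]

lemma dotE_bas (p : Fin n ⊕ Unit) (x : M n) : dotE (bas n p) x = (bas n).repr x p := by
  rw [← sum_repr]
  simp [Finsupp.single_apply]

/-- A linear map whose Gram matrix for `B` is that of an involution has determinant `±1`. -/
theorem det_abs (A σ : M n →ₗ[ℝ] M n) (hσ : σ ∘ₗ σ = LinearMap.id)
    (h : ∀ x y, B (A x) (A y) = dotE x (σ y)) : |LinearMap.det A| = 1 := by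
  classical
  set b := bas n with hb
  have hmat : (LinearMap.toMatrix b b A).transpose * (LinearMap.toMatrix b b (J ∘ₗ A))
      = LinearMap.toMatrix b b σ := by
    ext i k
    rw [Matrix.mul_apply]
    simp only [Matrix.transpose_apply, LinearMap.toMatrix_apply, LinearMap.comp_apply]
    rw [hb, sum_repr, ← B_eq_dotE, h, dotE_bas]
  have hdet := congrArg Matrix.det hmat
  rw [Matrix.det_mul, Matrix.det_transpose, LinearMap.toMatrix_comp b b b, Matrix.det_mul,
    LinearMap.det_toMatrix, LinearMap.det_toMatrix, LinearMap.det_toMatrix] at hdet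
  have hJ : LinearMap.det (J : M n →ₗ[ℝ] M n) * LinearMap.det (J : M n →ₗ[ℝ] M n) = 1 := by
    rw [← LinearMap.det_comp, J_J, LinearMap.det_id]
  have hS : LinearMap.det σ * LinearMap.det σ = 1 := by
    rw [← LinearMap.det_comp, hσ, LinearMap.det_id]
  set d := LinearMap.det A
  set j := LinearMap.det (J : M n →ₗ[ℝ] M n)
  set s := LinearMap.det σ
  have h4 : (d ^ 2) ^ 2 = 1 := by
    have : (d * (j * d)) * (d * (j * d)) = s * s := by rw [hdet]
    calc (d ^ 2) ^ 2 = (d * (j * d)) * (d * (j * d)) * 1 - d ^ 4 * (j * j - 1) := by ring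
      _ = 1 := by rw [this, hS, hJ]; ring
  have h2 : d ^ 2 = 1 := by
    have h5 : (d ^ 2 - 1) * (d ^ 2 + 1) = 0 := by ring_nf; ring_nf at h4; linarith
    rcases mul_eq_zero.1 h5 with h6 | h6
    · linarith
    · nlinarith [sq_nonneg d]
  have h7 : (|d| - 1) * (|d| + 1) = 0 := by
    have := sq_abs d
    ring_nf
    rw [this, h2]
    norm_num
  rcases mul_eq_zero.1 h7 with h8 | h8
  · linarith
  · linarith [abs_nonneg d]

end det

section frame

/-- an isotropic vector dual to `f`, orthogonal to the `E k` -/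
lemma exists_g {f : M 6} (hf0 : f ≠ 0) (hf : B f f = 0) (E : Fin 5 → M 6)
    (hunit : ∀ k, B (E k) (E k) = 1) (horth : ∀ k l, k ≠ l → B (E k) (E l) = 0)
    (hperp : ∀ k, B f (E k) = 0) :
    ∃ g : M 6, B g g = 0 ∧ B f g = -1 ∧ ∀ k, B g (E k) = 0 := by
  set y : M 6 := J f with hy
  have hfy : B f y = E2 f := by
    simp [hy, B, J, E2, sq]
  have hE2 : E2 f ≠ 0 := fun h => hf0 (E2_eq_zero f h)
  have hEE : ∀ k l, B (E k) (E l) = if k = l then 1 else 0 := by
    intro k l
    by_cases h : k = l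
    · subst h; simp [hunit]
    · simp [h, horth k l h]
  set y' : M 6 := y - ∑ k, B y (E k) • E k with hy'
  have hy'E : ∀ l, B y' (E l) = 0 := by
    intro l
    rw [hy', B_sub_left, B_sum_left]
    simp [B_smul_left, hEE]
  have hfy' : B f y' = E2 f := by
    rw [hy', B_sub_right, B_sum_right, hfy]
    simp [B_smul_right, hperp]
  set z : M 6 := (-(E2 f)⁻¹) • y' with hz
  have hfz : B f z = -1 := by
    rw [hz, B_smul_right, hfy']
    field_simp
  have hzE : ∀ l, B z (E l) = 0 := fun l => by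
    rw [hz, B_smul_left, hy'E, mul_zero]
  clear_value z
  refine ⟨z + (B z z / 2) • f, ?_, ?_, fun k => ?_⟩
  · rw [B_add_left, B_add_right, B_add_right, B_smul_left, B_smul_right, B_smul_right,
      B_smul_left, hf, B_comm z f, hfz]
    ring
  · rw [B_add_right, B_smul_right, hf, hfz]; ring
  · rw [B_add_left, B_smul_left, hperp, hzE]; ring

/-- the linear map given by a frame -/
noncomputable def Tmap (f g : M 6) (E : Fin 5 → M 6) : M 6 →ₗ[ℝ] M 6 where
  toFun y := y.2 • f + y.1 0 • g + ∑ k : Fin 5, y.1 k.succ • E k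
  map_add' x y := by
    simp only [Prod.snd_add, Prod.fst_add, Pi.add_apply, add_smul, sum_add_distrib]
    abel
  map_smul' c x := by
    simp only [Prod.smul_snd, Prod.smul_fst, Pi.smul_apply, smul_eq_mul, mul_smul, smul_add,
      smul_sum, RingHom.id_apply]

lemma Tmap_apply (f g : M 6) (E : Fin 5 → M 6) (y : M 6) :
    Tmap f g E y = y.2 • f + y.1 0 • g + ∑ k : Fin 5, y.1 k.succ • E k := rfl

/-- the involution of the coordinates -/
def sig : M 6 →ₗ[ℝ] M 6 where
  toFun y := (Fin.cons (-y.2) (fun k : Fin 5 => y.1 k.succ), -y.1 0)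
  map_add' x y := by
    refine Prod.ext ?_ ?_
    · ext i
      refine Fin.cases ?_ (fun k => ?_) i <;> simp [add_comm]
    · simp [add_comm]
  map_smul' c x := by
    refine Prod.ext ?_ ?_
    · ext i
      refine Fin.cases ?_ (fun k => ?_) i <;> simp
    · simp

lemma sig_sig : sig ∘ₗ sig = LinearMap.id := by
  refine LinearMap.ext fun x => ?_
  refine Prod.ext ?_ ?_
  · ext i
    refine Fin.cases ?_ (fun k => ?_) i <;> simp [sig]
  · simp [sig]

variable {f g : M 6} {E : Fin 5 → M 6} (hf : B f f = 0) (hg : B g g = 0) (hfg : B f g = -1)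
  (hunit : ∀ k, B (E k) (E k) = 1) (horth : ∀ k l, k ≠ l → B (E k) (E l) = 0)
  (hfE : ∀ k, B f (E k) = 0) (hgE : ∀ k, B g (E k) = 0)

include hf hfg hfE in
lemma B_Tmap_f (y : M 6) : B (Tmap f g E y) f = -y.1 0 := by
  rw [Tmap_apply, B_add_left, B_add_left, B_sum_left, B_smul_left, B_smul_left, hf, B_comm g f,
    hfg]
  simp [B_comm _ f, B_smul_right, hfE]

include hg hfg hgE in
lemma B_Tmap_g (y : M 6) : B (Tmap f g E y) g = -y.2 := by
  rw [Tmap_apply, B_add_left, B_add_left, B_sum_left, B_smul_left, B_smul_left, hg, hfg]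
  simp [B_comm _ g, B_smul_right, hgE]

include hunit horth hfE hgE in
lemma B_Tmap_E (y : M 6) (k : Fin 5) : B (Tmap f g E y) (E k) = y.1 k.succ := by
  have hEE : ∀ k l, B (E k) (E l) = if k = l then 1 else 0 := by
    intro k l
    by_cases h : k = l
    · subst h; simp [hunit]
    · simp [h, horth k l h]
  rw [Tmap_apply, B_add_left, B_add_left, B_sum_left, B_smul_left, B_smul_left, hfE, hgE]
  simp [B_smul_left, hEE]

include hf hg hfg hunit horth hfE hgE in
lemma B_Tmap (x y : M 6) : B (Tmap f g E x) (Tmap f g E y)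
    = -(x.2 * y.1 0) - x.1 0 * y.2 + ∑ k : Fin 5, x.1 k.succ * y.1 k.succ := by
  rw [Tmap_apply f g E y, B_add_right, B_add_right, B_sum_right, B_smul_right, B_smul_right,
    B_Tmap_f hf hfg hfE, B_Tmap_g hg hfg hgE]
  simp_rw [B_smul_right, B_Tmap_E hunit horth hfE hgE]
  have : ∑ k : Fin 5, y.1 k.succ * x.1 k.succ = ∑ k : Fin 5, x.1 k.succ * y.1 k.succ :=
    sum_congr rfl fun k _ => mul_comm _ _
  rw [this]
  ring

include hf hg hfg hunit horth hfE hgE in
lemma det_Tmap : |LinearMap.det (Tmap f g E)| = 1 := by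
  refine det_abs _ sig sig_sig fun x y => ?_
  have h1 := Fin.sum_univ_succ (fun i : Fin 6 => x.1 i * (sig y).1 i)
  rw [B_Tmap hf hg hfg hunit horth hfE hgE, dotE, h1]
  simp only [sig, LinearMap.coe_mk, AddHom.coe_mk, Fin.cons_zero, Fin.cons_succ]
  ring

include hf hg hfg hunit horth hfE hgE in
lemma volume_Tmap_image (s : Set (M 6)) : volume (Tmap f g E '' s) = volume s := by
  have : (volume : Measure (M 6)).IsAddHaarMeasure := by
    rw [Measure.volume_eq_prod]; infer_instance
  rw [Measure.addHaar_image_linearMap, det_Tmap hf hg hfg hunit horth hfE hgE]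
  simp

include hf hg hfg hunit horth hfE hgE in
lemma Tmap_surj (x : M 6) : ∃ y, Tmap f g E y = x := by
  have hdet : LinearMap.det (Tmap f g E) ≠ 0 := by
    intro h
    have := det_Tmap hf hg hfg hunit horth hfE hgE
    rw [h] at this
    norm_num at this
  exact (LinearMap.equivOfDetNeZero (Tmap f g E) hdet).surjective x

end frame

end Pool.Agent.RA.Cusp
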