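import Pool.Agent.Lib_helper83.RA.Region
import Pool.Agent.Lib_helper83.RA.Lorentz

/-!
Block E of MP_20f8ce_gt: the volume of a right-angled polytope in hyperbolic 6-space is bounded
below by the number of its ideal vertices.
-/

open MeasureTheory Finset

namespace Pool.Agent.RA.Cusp

section frame
variable {f g : M 6} {E : Fin 5 → M 6} (hf : B f f = 0) (hg : B g g = 0) (hfg : B f g = -1)
  (hunit : ∀ k, B (E k) (E k) = 1) (horth : ∀ k l, k ≠ l → B (E k) (E l) = 0)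
  (hfE : ∀ k, B f (E k) = 0) (hgE : ∀ k, B g (E k) = 0)

/-- coordinates in a frame -/
noncomputable def Smap (f g : M 6) (E : Fin 5 → M 6) (x : M 6) : M 6 :=
  (Fin.cons (-B x f) (fun k : Fin 5 => B x (E k)), -B x g)

lemma measurable_Smap (f g : M 6) (E : Fin 5 → M 6) : Measurable (Smap f g E) := by
  refine Measurable.prodMk ?_ (continuous_B_left g).neg.measurable
  refine measurable_pi_lambda _ fun i => ?_
  refine Fin.cases ?_ (fun k => ?_) i
  · exact (continuous_B_left f).neg.measurable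
  · exact (continuous_B_left (E k)).measurable

include hf hg hfg hunit horth hfE hgE in
lemma Smap_Tmap (y : M 6) : Smap f g E (Tmap f g E y) = y := by
  refine Prod.ext ?_ ?_
  · ext i
    refine Fin.cases ?_ (fun k => ?_) i
    · simp [Smap, B_Tmap_f hf hfg hfE]
    · simp [Smap, B_Tmap_E hunit horth hfE hgE]
  · simp [Smap, B_Tmap_g hg hfg hgE]

include hf hg hfg hunit horth hfE hgE in
lemma Tmap_Smap (x : M 6) : Tmap f g E (Smap f g E x) = x := by
  obtain ⟨y, rfl⟩ := Tmap_surj hf hg hfg hunit horth hfE hgE x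
  rw [Smap_Tmap hf hg hfg hunit horth hfE hgE]

include hf hg hfg hunit horth hfE hgE in
lemma volume_Smap_preimage (s : Set (M 6)) : volume (Smap f g E ⁻¹' s) = volume s := by
  rw [← volume_Tmap_image hf hg hfg hunit horth hfE hgE s]
  congr 1
  ext x
  constructor
  · intro hx
    exact ⟨_, hx, Tmap_Smap hf hg hfg hunit horth hfE hgE x⟩
  · rintro ⟨y, hy, rfl⟩
    rw [Set.mem_preimage, Smap_Tmap hf hg hfg hunit horth hfE hgE]
    exact hy

include hf hg hfg hunit horth hfE hgE in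
lemma B_self_coord (x : M 6) : B x x = -(2 * B x f * B x g) + ∑ k : Fin 5, B x (E k) ^ 2 := by
  obtain ⟨y, rfl⟩ := Tmap_surj hf hg hfg hunit horth hfE hgE x
  rw [B_Tmap hf hg hfg hunit horth hfE hgE, B_Tmap_f hf hfg hfE, B_Tmap_g hg hfg hgE]
  simp_rw [B_Tmap_E hunit horth hfE hgE, sq]
  ring

include hf hg hfg hunit horth hfE hgE in
lemma B_identity (x z : M 6) : 2 * B x f * B z f * B x z
    = B x x * B z f ^ 2 + B z z * B x f ^ 2
      - ∑ k : Fin 5, (B z f * B x (E k) - B x f * B z (E k)) ^ 2 := by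
  obtain ⟨y, rfl⟩ := Tmap_surj hf hg hfg hunit horth hfE hgE x
  obtain ⟨w, rfl⟩ := Tmap_surj hf hg hfg hunit horth hfE hgE z
  simp_rw [B_Tmap hf hg hfg hunit horth hfE hgE, B_Tmap_f hf hfg hfE,
    B_Tmap_E hunit horth hfE hgE]
  simp only [Fin.sum_univ_five]
  ring

include hf hg hfg hunit horth hfE hgE in
lemma parallel_of_perp {z : M 6} (hz : B z z = 0) (hzf : B z f = 0) :
    z = (-B z g) • f := by
  have h1 := B_self_coord hf hg hfg hunit horth hfE hgE z
  rw [hz, hzf] at h1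
  have h2 : ∀ k, B z (E k) = 0 := by
    have h3 : ∑ k : Fin 5, B z (E k) ^ 2 = 0 := by linarith
    intro k
    have h4 := (sum_eq_zero_iff_of_nonneg (fun i _ => sq_nonneg (B z (E i)))).1 h3 k (mem_univ k)
    exact pow_eq_zero_iff (two_ne_zero) |>.1 h4
  calc z = Tmap f g E (Smap f g E z) := (Tmap_Smap hf hg hfg hunit horth hfE hgE z).symm
    _ = (-B z g) • f := by simp [Tmap_apply, Smap, hzf, h2]

end frame

section cusp
variable {ι : Type} [Fintype ι] [DecidableEq ι] (R : RASys 6 ι)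

/-- a normalized ideal vertex of a right-angled system, with a frame -/
structure CV (v : Finset ι) where
  f : M 6
  g : M 6
  E : Fin 5 → ι
  E' : Fin 5 → ι
  a : Fin 5 → ℝ
  k0 : Fin 5
  f0 : f ≠ 0
  iso : B f f = 0
  fK : f ∈ R.K
  ha : ∀ k, 1 ≤ a k
  eE' : ∀ k, R.e (E' k) = a k • f - R.e (E k)
  fE : ∀ k, B f (R.e (E k)) = 0
  orth : ∀ k l, k ≠ l → B (R.e (E k)) (R.e (E l)) = 0
  cover : ∀ i, B f (R.e i) = 0 ↔ ∃ k, i = E k ∨ i = E' k
  memv : ∀ i, i ∈ v ↔ B f (R.e i) = 0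
  gap : ∀ j, B f (R.e j) = 0 ∨ B f (R.e j) ≤ -1
  fsum : f = R.e (E k0) + R.e (E' k0)
  giso : B g g = 0
  fg : B f g = -1
  gE : ∀ k, B g (R.e (E k)) = 0

theorem exists_CV
    (hframe : ∀ f : M 6, f ≠ 0 → B f f = 0 → f ∈ R.K →
      ∃ (E E' : Fin 5 → ι) (a : Fin 5 → ℝ),
        (∀ k, 0 < a k) ∧ (∀ k, R.e (E' k) = a k • f - R.e (E k)) ∧
        (∀ k, B f (R.e (E k)) = 0) ∧ (∀ k l, k ≠ l → B (R.e (E k)) (R.e (E l)) = 0) ∧
        (∀ i, B f (R.e i) = 0 ↔ ∃ k, i = E k ∨ i = E' k))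
    (hiv : ∀ v ∈ iv R.G, ∃ f : M 6, f ≠ 0 ∧ B f f = 0 ∧ f ∈ R.K ∧ ∀ i, i ∈ v ↔ B f (R.e i) = 0)
    (v : Finset ι) (hv : v ∈ iv R.G) : Nonempty (CV R v) := by
  obtain ⟨f, hf0, hf, hfK, hmem⟩ := hiv v hv
  obtain ⟨E, E', a, ha, hE', hfE, horth, hcover⟩ := hframe f hf0 hf hfK
  obtain ⟨k0, -, hk0⟩ := exists_min_image univ a ⟨0, mem_univ 0⟩
  set F : M 6 := a k0 • f with hF
  have hfac : a k0 ≠ 0 := (ha k0).ne'
  have hFF : B F F = 0 := by rw [hF, B_smul_left, B_smul_right, hf]; ring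
  have hF0 : F ≠ 0 := smul_ne_zero hfac hf0
  have hFe : ∀ i, B F (R.e i) = a k0 * B f (R.e i) := fun i => by rw [hF, B_smul_left]
  have hFe0 : ∀ i, B F (R.e i) = 0 ↔ B f (R.e i) = 0 := fun i => by
    rw [hFe, mul_eq_zero, or_iff_right hfac]
  have hFK : F ∈ R.K := fun i => by
    rw [hFe]; exact mul_nonpos_of_nonneg_of_nonpos (ha k0).le (hfK i)
  have hsum : F = R.e (E k0) + R.e (E' k0) := by rw [hE']; abel
  have hFE : ∀ k, B F (R.e (E k)) = 0 := fun k => (hFe0 _).2 (hfE k)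
  have hFE' : ∀ k, B F (R.e (E' k)) = 0 := fun k => by
    rw [hE', B_sub_right, hFE, B_smul_right, hF, B_smul_left, hf]; ring
  obtain ⟨g, hg, hFg, hgE⟩ := exists_g hF0 hFF (fun k => R.e (E k)) (fun k => R.unit _) horth hFE
  refine ⟨⟨F, g, E, E', fun k => a k / a k0, k0, hF0, hFF, hFK, fun k => ?_, fun k => ?_, hFE,
    horth, fun i => ?_, fun i => ?_, fun j => ?_, hsum, hg, hFg, hgE⟩⟩
  · exact (one_le_div (ha k0)).2 (hk0 k (mem_univ k))
  · rw [hE', hF, smul_smul, div_mul_cancel₀ _ hfac]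
  · rw [hFe0, hcover]
  · rw [hmem, hFe0]
  · by_cases h : B F (R.e j) = 0
    · exact Or.inl h
    right
    have h1 : j ≠ E k0 := fun h' => h (h' ▸ hFE k0)
    have h2 : j ≠ E' k0 := fun h' => h (h' ▸ hFE' k0)
    have h3 := R.gram _ _ h1.symm
    have h4 := R.gram _ _ h2.symm
    have h5 : B F (R.e j) = B (R.e (E k0)) (R.e j) + B (R.e (E' k0)) (R.e j) := by
      rw [← B_add_left, ← hsum]
    rw [h5] at h ⊢
    rcases h3 with h3 | h3 <;> rcases h4 with h4 | h4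
    · exact absurd (by rw [h3, h4, add_zero]) h
    · linarith
    · linarith
    · linarith

namespace CV
variable {R}
variable {v w : Finset ι} (P : CV R v) (P' : CV R w)

/-- normals of the frame -/
def e (k : Fin 5) : M 6 := R.e (P.E k)

lemma unit (k : Fin 5) : B (P.e k) (P.e k) = 1 := R.unit _
lemma orth' (k l : Fin 5) (h : k ≠ l) : B (P.e k) (P.e l) = 0 := P.orth k l h
lemma fE' (k : Fin 5) : B P.f (P.e k) = 0 := P.fE k
lemma gE' (k : Fin 5) : B P.g (P.e k) = 0 := P.gE k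

lemma self_coord (x : M 6) : B x x = -(2 * B x P.f * B x P.g) + ∑ k, B x (P.e k) ^ 2 :=
  B_self_coord P.iso P.giso P.fg P.unit P.orth' P.fE' P.gE' x

lemma identity (x z : M 6) : 2 * B x P.f * B z P.f * B x z
    = B x x * B z P.f ^ 2 + B z z * B x P.f ^ 2
      - ∑ k : Fin 5, (B z P.f * B x (P.e k) - B x P.f * B z (P.e k)) ^ 2 :=
  B_identity P.iso P.giso P.fg P.unit P.orth' P.fE' P.gE' x z

/-- Two different ideal vertices satisfy `B f f' ≤ -1`. -/
lemma le_neg_one (h : v ≠ w) : B P'.f P.f ≤ -1 := by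
  have h1 : B P'.f P.f = B P'.f (R.e (P.E P.k0)) + B P'.f (R.e (P.E' P.k0)) := by
    rw [← B_add_right, ← P.fsum]
  have h2 := P'.gap (P.E P.k0)
  have h3 := P'.gap (P.E' P.k0)
  have h4 : B P'.f P.f ≠ 0 := by
    intro h0
    apply h
    have h5 := parallel_of_perp P.iso P.giso P.fg P.unit P.orth' P.fE' P.gE' P'.iso h0
    set c := -B P'.f P.g
    have hc : c ≠ 0 := fun hc => P'.f0 (by rw [h5, hc, zero_smul])
    ext i
    rw [P.memv, P'.memv, h5, B_smul_left, mul_eq_zero, or_iff_right hc]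
  rw [h1] at h4 ⊢
  rcases h2 with h2 | h2 <;> rcases h3 with h3 | h3
  · exact absurd (by rw [h2, h3, add_zero]) h4
  · linarith
  · linarith
  · linarith

/-- time scale of another vertex -/
noncomputable def t : ℝ := 1 / (-B P'.f P.f)

/-- position of another vertex in the box -/
noncomputable def u (k : Fin 5) : ℝ := B P'.f (P.e k) / (-B P'.f P.f)

lemma t_pos (h : v ≠ w) : 0 < t P P' := by
  have := le_neg_one P P' h
  unfold t
  exact one_div_pos.2 (by linarith)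

lemma t_le (h : v ≠ w) : t P P' ≤ 1 := by
  have := le_neg_one P P' h
  unfold t
  rw [div_le_one (by linarith)]
  linarith

lemma u_or (h : v ≠ w) (k : Fin 5) : u P P' k = 0 ∨ u P P' k ≤ -t P P' := by
  have h1 := le_neg_one P P' h
  have h2 : 0 < -B P'.f P.f := by linarith
  unfold u t
  rcases P'.gap (P.E k) with h3 | h3
  · left; rw [e, h3, zero_div]
  · right
    rw [e, ← neg_div, div_le_div_iff_of_pos_right h2]
    exact h3

lemma u_or' (h : v ≠ w) (k : Fin 5) : u P P' k = -P.a k ∨ -P.a k + t P P' ≤ u P P' k := by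
  have h1 := le_neg_one P P' h
  have h2 : 0 < -B P'.f P.f := by linarith
  have h4 : B P'.f (R.e (P.E' k)) = P.a k * B P'.f P.f - B P'.f (P.e k) := by
    rw [P.eE', B_sub_right, B_smul_right]; rfl
  have h5 := P'.gap (P.E' k)
  rw [h4] at h5
  unfold u t
  rcases h5 with h3 | h3
  · left
    rw [div_eq_iff h2.ne']
    linarith
  · right
    rw [← sub_nonneg]
    have : B P'.f (P.e k) / -B P'.f P.f - (-P.a k + 1 / -B P'.f P.f)
        = (B P'.f (P.e k) - P.a k * B P'.f P.f - 1) / -B P'.f P.f := by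
      have hne : B P'.f P.f ≠ 0 := by linarith
      field_simp
      ring
    rw [this]
    exact div_nonneg (by linarith) h2.le

lemma u_mem (k : Fin 5) : u P P' k * (-B P'.f P.f) = B P'.f (P.e k) ∨ B P'.f P.f = 0 := by
  by_cases h : B P'.f P.f = 0
  · exact Or.inr h
  · left
    unfold u
    exact div_mul_cancel₀ _ (neg_ne_zero.2 h)

lemma sep {w' : Finset ι} (P'' : CV R w') (h : v ≠ w) (h' : v ≠ w') (hw : w ≠ w') :
    2 * t P P' * t P P'' ≤ d2 (u P P') (u P P'') := by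
  have h1 := le_neg_one P P' h
  have h2 := le_neg_one P P'' h'
  have h3 := le_neg_one P'' P' (Ne.symm hw)
  have h4 := P.identity P'.f P''.f
  rw [P'.iso, P''.iso] at h4
  set x := -B P'.f P.f with hx
  set y := -B P''.f P.f with hy
  have hx0 : 0 < x := by linarith
  have hy0 : 0 < y := by linarith
  have hB1 : B P'.f P.f = -x := by rw [hx]; ring
  have hB2 : B P''.f P.f = -y := by rw [hy]; ring
  rw [hB1, hB2] at h4
  have h5 : d2 (u P P') (u P P'') * (x * y) ^ 2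
      = ∑ k : Fin 5, (-y * B P'.f (P.e k) - -x * B P''.f (P.e k)) ^ 2 := by
    unfold d2 u
    rw [sum_mul]
    refine sum_congr rfl fun k _ => ?_
    rw [← hx, ← hy]
    field_simp
    ring
  have h6 : 2 ≤ d2 (u P P') (u P P'') * (x * y) := by
    have h7 : 2 * (x * y) ≤ d2 (u P P') (u P P'') * (x * y) * (x * y) := by
      have : d2 (u P P') (u P P'') * (x * y) * (x * y) = d2 (u P P') (u P P'') * (x * y) ^ 2 := by
        ring
      rw [this, h5]
      have hxy : 0 < x * y := mul_pos hx0 hy0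
      nlinarith
    exact le_of_mul_le_mul_right h7 (mul_pos hx0 hy0)
  unfold t
  rw [← hx, ← hy]
  have h8 : 2 * (1 / x) * (1 / y) = 2 / (x * y) := by field_simp
  rw [h8, div_le_iff₀ (mul_pos hx0 hy0)]
  exact h6

/-- the other ideal vertices -/
abbrev Oth (R : RASys 6 ι) (v : Finset ι) := {w : Finset ι // w ∈ iv R.G ∧ w ≠ v}

variable (Q : ∀ w : Finset ι, w ∈ iv R.G → CV R w)

/-- the function `Y²` of the vertex `v` -/
noncomputable def Yv : (Fin 5 → ℝ) → ℝ :=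
  Ysq (fun w : Oth R v => t P (Q w.1 w.2.1)) (fun w : Oth R v => u P (Q w.1 w.2.1))

/-- the region of the vertex `v` -/
def Rv : Set (M 6) := Smap P.f P.g P.e ⁻¹' Reg P.a (Yv P Q)

lemma measurableSet_Rv : MeasurableSet (Rv P Q) :=
  (measurable_Smap _ _ _) (measurableSet_Reg _ (continuous_Ysq _ _))

lemma volume_Rv : ENNReal.ofReal 0.065 ≤ 7 * volume (Rv P Q) := by
  unfold Rv
  rw [volume_Smap_preimage P.iso P.giso P.fg P.unit P.orth' P.fE' P.gE']
  exact volume_region P.a P.ha _ _ (fun w => t_pos P _ w.2.2.symm) (fun w => t_le P _ w.2.2.symm)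
    (fun w k => u_or P _ w.2.2.symm k) (fun w k => u_or' P _ w.2.2.symm k)
    (fun w w' hne => sep P _ _ w.2.2.symm w'.2.2.symm fun h => hne (Subtype.ext h))

/-- unfolding of the region -/
lemma mem_Rv {x : M 6} (hx : x ∈ Rv P Q) : 0 < -B x P.f ∧
    (∀ k, -P.a k ≤ (-B x P.f)⁻¹ * B x (P.e k) ∧ (-B x P.f)⁻¹ * B x (P.e k) ≤ 0) ∧
    (B x P.f) ^ 2 * Yv P Q (fun k => (-B x P.f)⁻¹ * B x (P.e k)) ≤ -B x x ∧ -B x x ≤ 1 := by
  have h1 := P.self_coord x
  obtain ⟨h2, h3, h4, h5⟩ := hx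
  have e1 : (Smap P.f P.g P.e x).1 0 = -B x P.f := rfl
  have e2 : ∀ k : Fin 5, (Smap P.f P.g P.e x).1 k.succ = B x (P.e k) := fun k => rfl
  have e3 : (Smap P.f P.g P.e x).2 = -B x P.g := rfl
  simp only [e1, e2, e3] at h2 h3 h4 h5
  rw [mem_box] at h3
  refine ⟨h2, h3, ?_, ?_⟩
  · rw [h1]
    refine le_trans (le_of_eq ?_) (h4.trans (le_of_eq ?_)) <;> ring
  · rw [h1]
    refine le_trans (le_of_eq ?_) h5
    ring

lemma Rv_subset_K {x : M 6} (hx : x ∈ Rv P Q) : x ∈ R.K := by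
  obtain ⟨h2, h3, h4, h5⟩ := mem_Rv P Q hx
  set ξ := -B x P.f with hξ
  have hBf : B x P.f = -ξ := by rw [hξ]; ring
  intro j
  rcases P.gap j with h0 | h0
  · obtain ⟨k, hk | hk⟩ := (P.cover j).1 h0
    · have := (h3 k).2
      rw [hk]
      have h6 : B x (R.e (P.E k)) = ξ * (ξ⁻¹ * B x (P.e k)) := by
        rw [← mul_assoc, mul_inv_cancel₀ h2.ne', one_mul]; rfl
      rw [h6]
      exact mul_nonpos_of_nonneg_of_nonpos h2.le this
    · have := (h3 k).1
      rw [hk, P.eE', B_sub_right, B_smul_right, hBf]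
      have h6 : B x (R.e (P.E k)) = ξ * (ξ⁻¹ * B x (P.e k)) := by
        rw [← mul_assoc, mul_inv_cancel₀ h2.ne', one_mul]; rfl
      rw [h6]
      nlinarith
  · have h6 := P.identity x (R.e j)
    rw [B_comm P.f] at h0
    rw [R.unit, hBf] at h6
    have h7 : 0 ≤ ∑ k : Fin 5, (B (R.e j) P.f * B x (P.e k) - -ξ * B (R.e j) (P.e k)) ^ 2 := by
      positivity
    have h8 : (113 / 81 : ℝ) ≤ Yv P Q (fun k => ξ⁻¹ * B x (P.e k)) := Bc_le_Ysq _ _ _
    rw [hBf] at h4
    set c := B (R.e j) P.f with hc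
    have h9 : ξ ^ 2 ≤ -B x x := by nlinarith [sq_nonneg ξ]
    have h10 : 1 ≤ c ^ 2 := by nlinarith
    have h11 : 2 * -ξ * c * B x (R.e j) ≤ 0 := by
      rw [h6]; nlinarith [mul_nonneg (sub_nonneg.2 h10) (sq_nonneg ξ)]
    have h12 : 0 < 2 * -ξ * c := by nlinarith
    exact nonpos_of_mul_nonpos_right h11 h12

/-- the region is closer to `v` than to all the other ideal vertices -/
lemma Rv_closer {x : M 6} (hx : x ∈ Rv P Q) {w : Finset ι} (hw : w ∈ iv R.G) (hne : w ≠ v) :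
    B x (Q w hw).f ≤ B x P.f := by
  obtain ⟨h2, h3, h4, h5⟩ := mem_Rv P Q hx
  set P' := Q w hw with hP'
  set ξ := -B x P.f with hξ
  have hBf : B x P.f = -ξ := by rw [hξ]; ring
  have h1 := le_neg_one P P' hne.symm
  have h6 := P.identity x P'.f
  rw [P'.iso, hBf] at h6
  rw [hBf] at h4 ⊢
  set c := -B P'.f P.f with hc
  have hBc : B P'.f P.f = -c := by rw [hc]; ring
  rw [hBc] at h6
  have hc1 : 1 ≤ c := by linarith
  have h7 : 2 * t P P' - d2 (fun k => ξ⁻¹ * B x (P.e k)) (u P P')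
      ≤ Yv P Q (fun k => ξ⁻¹ * B x (P.e k)) :=
    le_Ysq (fun w : Oth R v => t P (Q w.1 w.2.1)) (fun w : Oth R v => u P (Q w.1 w.2.1)) _
      ⟨w, hw, hne⟩
  have h8 : ∑ k : Fin 5, (-c * B x (P.e k) - -ξ * B P'.f (P.e k)) ^ 2
      = (ξ * c) ^ 2 * d2 (fun k => ξ⁻¹ * B x (P.e k)) (u P P') := by
    unfold d2 u
    rw [mul_sum]
    refine sum_congr rfl fun k _ => ?_
    rw [← hc]
    have : ξ ≠ 0 := h2.ne'
    have : c ≠ 0 := by linarith
    field_simp
    ring
  have h9 : t P P' = 1 / c := rfl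
  rw [h8] at h6
  rw [h9] at h7
  set D := d2 (fun k => ξ⁻¹ * B x (P.e k)) (u P P') with hD
  set Yx := Yv P Q (fun k => ξ⁻¹ * B x (P.e k)) with hYx
  have h10 : ξ ^ 2 * (2 * (1 / c)) ≤ -B x x + ξ ^ 2 * D := by
    nlinarith [mul_le_mul_of_nonneg_left h7 (sq_nonneg ξ)]
  have h11 : ξ ^ 2 * 2 * c ≤ c ^ 2 * (-B x x + ξ ^ 2 * D) := by
    have h12 := mul_le_mul_of_nonneg_left h10 (sq_nonneg c)
    refine le_trans (le_of_eq ?_) h12
    field_simp
  have h13 : 2 * (ξ * c) * B x P'.f ≤ 2 * (ξ * c) * -ξ := by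
    nlinarith
  exact le_of_mul_le_mul_left h13 (by positivity)

end CV

lemma volume_hyperplane {z : M 6} (hz : z ≠ 0) : volume {x : M 6 | B x z = 0} = 0 := by
  have : (volume : Measure (M 6)).IsAddHaarMeasure := by
    rw [Measure.volume_eq_prod]; infer_instance
  set W : Submodule ℝ (M 6) := LinearMap.ker ((Bl (n := 6)).flip z) with hW
  have h1 : {x : M 6 | B x z = 0} = (W : Set (M 6)) := by
    ext x; simp [hW, LinearMap.mem_ker]
  rw [h1]
  refine Measure.addHaar_submodule _ W fun h => ?_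
  have h2 : J z ∈ W := h ▸ Submodule.mem_top
  have h3 : B (J z) z = 0 := by simpa [hW, LinearMap.mem_ker] using h2
  have h4 : B (J z) z = E2 z := by
    rw [B_comm]
    simp [B, J, E2, sq]
  exact hz (E2_eq_zero z (h4 ▸ h3))

/-- Block E, with the two facts on ideal vertices as hypotheses. -/
theorem cusp_volume_of
    (hframe : ∀ f : M 6, f ≠ 0 → B f f = 0 → f ∈ R.K →
      ∃ (E E' : Fin 5 → ι) (a : Fin 5 → ℝ),
        (∀ k, 0 < a k) ∧ (∀ k, R.e (E' k) = a k • f - R.e (E k)) ∧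
        (∀ k, B f (R.e (E k)) = 0) ∧ (∀ k l, k ≠ l → B (R.e (E k)) (R.e (E l)) = 0) ∧
        (∀ i, B f (R.e i) = 0 ↔ ∃ k, i = E k ∨ i = E' k))
    (hiv : ∀ v ∈ iv R.G, ∃ f : M 6, f ≠ 0 ∧ B f f = 0 ∧ f ∈ R.K ∧ ∀ i, i ∈ v ↔ B f (R.e i) = 0)
    (hfin : volume (R.K ∩ {x | -1 ≤ B x x}) < ⊤) :
    (0.065 : ℝ) * (iv R.G).card ≤ 7 * (volume (R.K ∩ {x | -1 ≤ B x x})).toReal := by
  classical
  have hne : ∀ w : Finset ι, w ∈ iv R.G → Nonempty (CV R w) := exists_CV R hframe hiv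
  set Q : ∀ w : Finset ι, w ∈ iv R.G → CV R w := fun w hw => (hne w hw).some with hQ
  set A : {w : Finset ι // w ∈ iv R.G} → Set (M 6) := fun v => CV.Rv (Q v.1 v.2) Q with hA
  have hsub : (⋃ v, A v) ⊆ R.K ∩ {x | -1 ≤ B x x} := by
    intro x hx
    obtain ⟨v, hv⟩ := Set.mem_iUnion.1 hx
    refine ⟨CV.Rv_subset_K _ _ hv, ?_⟩
    have := (CV.mem_Rv _ _ hv).2.2.2
    show -1 ≤ B x x
    linarith
  have hdisj : Pairwise (Function.onFun (AEDisjoint volume) A) := by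
    intro v w hvw
    have hvw' : v.1 ≠ w.1 := fun h => hvw (Subtype.ext h)
    set z := (Q v.1 v.2).f - (Q w.1 w.2).f with hz
    have hz0 : z ≠ 0 := by
      intro h
      have h1 := CV.le_neg_one (Q v.1 v.2) (Q w.1 w.2) hvw'
      have h2 : (Q v.1 v.2).f = (Q w.1 w.2).f := sub_eq_zero.1 h
      rw [h2, (Q w.1 w.2).iso] at h1
      linarith
    refine measure_mono_null ?_ (volume_hyperplane hz0)
    rintro x ⟨hx1, hx2⟩
    have h1 := CV.Rv_closer _ _ hx1 w.2 (Ne.symm hvw')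
    have h2 := CV.Rv_closer _ _ hx2 v.2 hvw'
    show B x z = 0
    rw [hz, B_sub_right]
    linarith
  have hmeas : ∀ v, NullMeasurableSet (A v) volume := fun v =>
    (CV.measurableSet_Rv _ _).nullMeasurableSet
  have h1 : ∑ v, volume (A v) ≤ volume (R.K ∩ {x | -1 ≤ B x x}) := by
    rw [← tsum_fintype (L := SummationFilter.unconditional _), ← measure_iUnion₀ hdisj hmeas]
    exact measure_mono hsub
  have h2 : ∑ v : {w : Finset ι // w ∈ iv R.G}, ENNReal.ofReal 0.065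
      ≤ 7 * volume (R.K ∩ {x | -1 ≤ B x x}) :=
    calc ∑ v : {w : Finset ι // w ∈ iv R.G}, ENNReal.ofReal 0.065
        ≤ ∑ v, 7 * volume (A v) := sum_le_sum fun v _ => CV.volume_Rv _ _
      _ = 7 * ∑ v, volume (A v) := by rw [mul_sum]
      _ ≤ _ := by gcongr
  rw [sum_const, card_univ, Fintype.card_coe, nsmul_eq_mul] at h2
  have h3 := ENNReal.toReal_mono (ENNReal.mul_ne_top (by norm_num) hfin.ne) h2
  rw [ENNReal.toReal_mul, ENNReal.toReal_mul, ENNReal.toReal_natCast,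
    ENNReal.toReal_ofReal (by norm_num)] at h3
  norm_num at h3 ⊢
  linarith

end cusp

end Pool.Agent.RA.Cusp
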