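import Mathlib

/-!
Block E of MP_20f8ce_gt: a Blichfeldt type estimate on a box in `ℝ⁵`.
-/

open MeasureTheory Finset

namespace Pool.Agent.RA.Cusp

/-- square of the Euclidean distance in `ℝ⁵` -/
def d2 (x y : Fin 5 → ℝ) : ℝ := ∑ k, (x k - y k) ^ 2

lemma d2_nonneg (x y : Fin 5 → ℝ) : 0 ≤ d2 x y := by
  unfold d2; positivity

lemma continuous_d2 (y : Fin 5 → ℝ) : Continuous (fun x => d2 x y) := by
  unfold d2; fun_prop

lemma le_d2 (x y : Fin 5 → ℝ) (k : Fin 5) : (x k - y k) ^ 2 ≤ d2 x y := by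
  unfold d2
  exact single_le_sum (f := fun k => (x k - y k) ^ 2) (fun i _ => sq_nonneg _) (mem_univ k)

/-- the constant of the argument -/
noncomputable def Bc : ℝ := 113 / 81

/-- weighted variance identity in one coordinate -/
lemma var_le {κ : Type*} (s : Finset κ) (b y : κ → ℝ) :
    ∑ i ∈ s, ∑ j ∈ s, b i * b j * (y i - y j) ^ 2
      ≤ 2 * ((∑ i ∈ s, b i) * ∑ j ∈ s, b j * y j ^ 2) := by
  have h : ∑ i ∈ s, ∑ j ∈ s, b i * b j * (y i - y j) ^ 2
      = 2 * ((∑ i ∈ s, b i) * ∑ j ∈ s, b j * y j ^ 2) - 2 * (∑ i ∈ s, b i * y i) ^ 2 := by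
    have h1 : ∀ i j, b i * b j * (y i - y j) ^ 2
        = (b i * y i ^ 2) * b j + b i * (b j * y j ^ 2) - 2 * ((b i * y i) * (b j * y j)) := by
      intro i j; ring
    simp_rw [h1, sum_sub_distrib, sum_add_distrib, ← mul_sum, ← sum_mul]
    ring
  rw [h]
  nlinarith [sq_nonneg (∑ i ∈ s, b i * y i)]

/-- Blichfeldt's inequality -/
lemma blichfeldt {κ : Type*} [DecidableEq κ] (s : Finset κ) (t : κ → ℝ) (u : κ → Fin 5 → ℝ)
    (U : Fin 5 → ℝ) (ht : ∀ w ∈ s, 0 < t w) (ht1 : ∀ w ∈ s, t w ≤ 1)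
    (hsep : ∀ w ∈ s, ∀ w' ∈ s, w ≠ w' → 2 * t w * t w' ≤ d2 (u w) (u w')) :
    ∑ w ∈ s, ((2 - Bc / t w) / (2 - Bc) - d2 U (u w) / t w) ≤ 1 := by
  classical
  rcases s.eq_empty_or_nonempty with rfl | hne
  · simp
  set b : κ → ℝ := fun w => 1 / t w with hb
  set S : ℝ := ∑ w ∈ s, b w with hS
  set r : κ → ℝ := fun w => d2 U (u w) with hr
  have hb1 : ∀ w ∈ s, 1 ≤ b w := fun w hw => by
    rw [hb]; simpa using (one_le_div (ht w hw)).2 (ht1 w hw)
  have hcard : (s.card : ℝ) ≤ S := by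
    rw [hS]; simpa using card_nsmul_le_sum s b 1 hb1
  have hk1 : (1 : ℝ) ≤ s.card := by
    exact_mod_cast hne.card_pos
  have hSpos : 0 < S := by linarith
  -- the double sum
  have hdouble : ∑ i ∈ s, ∑ j ∈ s, b i * b j * d2 (u i) (u j) ≤ 2 * (S * ∑ j ∈ s, b j * r j) := by
    have h1 : ∑ i ∈ s, ∑ j ∈ s, b i * b j * d2 (u i) (u j)
        = ∑ k, ∑ i ∈ s, ∑ j ∈ s, b i * b j * ((u i k - U k) - (u j k - U k)) ^ 2 := by
      rw [sum_comm (s := (univ : Finset (Fin 5))) (t := s)]
      refine sum_congr rfl fun i _ => ?_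
      rw [sum_comm (s := (univ : Finset (Fin 5))) (t := s)]
      refine sum_congr rfl fun j _ => ?_
      rw [d2, mul_sum]
      refine sum_congr rfl fun k _ => ?_
      ring
    have h2 : 2 * (S * ∑ j ∈ s, b j * r j)
        = ∑ k, 2 * (S * ∑ j ∈ s, b j * (u j k - U k) ^ 2) := by
      rw [← mul_sum, ← mul_sum, sum_comm]
      congr 2
      refine sum_congr rfl fun j _ => ?_
      rw [hr]
      simp only [d2, mul_sum]
      refine sum_congr rfl fun k _ => ?_
      ring
    rw [h1, h2]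
    exact sum_le_sum fun k _ => var_le s b fun i => u i k - U k
  have hlow : 2 * ((s.card : ℝ) * (s.card - 1)) ≤ ∑ i ∈ s, ∑ j ∈ s, b i * b j * d2 (u i) (u j) := by
    have h1 : ∀ i ∈ s, 2 * ((s.card : ℝ) - 1) ≤ ∑ j ∈ s, b i * b j * d2 (u i) (u j) := by
      intro i hi
      rw [← Finset.add_sum_erase s _ hi]
      have h2 : 0 ≤ b i * b i * d2 (u i) (u i) :=
        mul_nonneg (mul_self_nonneg _) (d2_nonneg _ _)
      have h3 : ((s.erase i).card : ℝ) * 2 ≤ ∑ j ∈ s.erase i, b i * b j * d2 (u i) (u j) := by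
        have := card_nsmul_le_sum (s.erase i) (fun j => b i * b j * d2 (u i) (u j)) 2 ?_
        · simpa using this
        · intro j hj
          have hj' := mem_of_mem_erase hj
          have hij : i ≠ j := fun h => (ne_of_mem_erase hj) h.symm
          have h4 := hsep i hi j hj' hij
          have hti := ht i hi
          have htj := ht j hj'
          rw [hb]
          simp only
          rw [div_mul_div_comm, one_mul, div_mul_eq_mul_div, one_mul, le_div_iff₀ (by positivity)]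
          nlinarith
      have h5 : ((s.erase i).card : ℝ) = s.card - 1 := by
        rw [card_erase_of_mem hi]
        have : 1 ≤ s.card := hne.card_pos
        push_cast [Nat.cast_sub this]
        ring
      rw [h5] at h3
      linarith
    calc 2 * ((s.card : ℝ) * (s.card - 1)) = ∑ i ∈ s, 2 * ((s.card : ℝ) - 1) := by
          rw [sum_const, nsmul_eq_mul]; ring
      _ ≤ _ := sum_le_sum h1
  -- value of the left hand side
  have hlhs : ∑ w ∈ s, ((2 - Bc / t w) / (2 - Bc) - d2 U (u w) / t w)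
      = (2 * s.card - Bc * S) / (2 - Bc) - ∑ j ∈ s, b j * r j := by
    rw [sum_sub_distrib]
    congr 1
    · rw [← sum_div, sum_sub_distrib, sum_const, nsmul_eq_mul, hS, mul_sum]
      congr 2
      · ring
      · refine sum_congr rfl fun w _ => ?_
        rw [hb]; simp only; ring
    · refine sum_congr rfl fun w _ => ?_
      rw [hb, hr]; simp only; ring
  rw [hlhs]
  set k : ℝ := (s.card : ℝ) with hk
  set Z : ℝ := ∑ j ∈ s, b j * r j with hZ
  have hZ1 : k * (k - 1) ≤ S * Z := by linarith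
  have hBc : Bc = 113 / 81 := rfl
  rw [hBc]
  have h49 : (2 : ℝ) - 113 / 81 = 49 / 81 := by norm_num
  rw [h49]
  have hgoal : (2 * k - 113 / 81 * S) / (49 / 81) * S - S * Z ≤ S := by
    have : (2 * k - 113 / 81 * S) / (49 / 81) * S ≤ S + k * (k - 1) := by
      rw [div_mul_eq_mul_div, div_le_iff₀ (by norm_num)]
      nlinarith [mul_nonneg (sub_nonneg.2 hcard) (sub_nonneg.2 hk1),
        mul_nonneg (sub_nonneg.2 hcard) (sub_nonneg.2 hcard)]
    linarith
  have : ((2 * k - 113 / 81 * S) / (49 / 81) - Z) * S ≤ 1 * S := by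
    nlinarith
  exact le_of_mul_le_mul_right this hSpos

/-- the box -/
def box (a : Fin 5 → ℝ) : Set (Fin 5 → ℝ) := Set.Icc (fun k => -a k) (fun _ => 0)

lemma isCompact_box (a : Fin 5 → ℝ) : IsCompact (box a) := isCompact_Icc

lemma measurableSet_box (a : Fin 5 → ℝ) : MeasurableSet (box a) := measurableSet_Icc

lemma mem_box {a U : Fin 5 → ℝ} : U ∈ box a ↔ ∀ k, -a k ≤ U k ∧ U k ≤ 0 := by
  simp only [box, Set.mem_Icc, Pi.le_def, forall_and]

lemma volume_box {a : Fin 5 → ℝ} (ha : ∀ k, 0 ≤ a k) :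
    (volume (box a)).toReal = ∏ k, a k := by
  rw [box, Real.volume_Icc_pi, ENNReal.toReal_prod]
  refine prod_congr rfl fun k _ => ?_
  rw [ENNReal.toReal_ofReal] <;> linarith [ha k]

/-- the excess function of an ideal vertex -/
noncomputable def phi (t : ℝ) (u U : Fin 5 → ℝ) : ℝ := max 0 (2 * t - Bc - d2 U u)

/-- the Blichfeldt function of an ideal vertex -/
noncomputable def eta (t : ℝ) (u U : Fin 5 → ℝ) : ℝ :=
  max 0 ((2 - Bc / t) / (2 - Bc) - d2 U u / t)

lemma phi_nonneg (t : ℝ) (u U : Fin 5 → ℝ) : 0 ≤ phi t u U := le_max_left _ _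
lemma eta_nonneg (t : ℝ) (u U : Fin 5 → ℝ) : 0 ≤ eta t u U := le_max_left _ _

lemma continuous_phi (t : ℝ) (u : Fin 5 → ℝ) : Continuous (phi t u) := by
  unfold phi d2; fun_prop

lemma continuous_eta (t : ℝ) (u : Fin 5 → ℝ) : Continuous (eta t u) := by
  unfold eta d2; fun_prop

lemma integrableOn_box {f : (Fin 5 → ℝ) → ℝ} (hf : Continuous f) (a : Fin 5 → ℝ) :
    IntegrableOn f (box a) :=
  hf.continuousOn.integrableOn_compact (isCompact_box a)

/-- comparison of the two functions by a homothety with ratio `9/7` -/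
lemma phi_le_eta (a : Fin 5 → ℝ) {t : ℝ} (ht : 0 < t) (ht1 : t ≤ 1) (u : Fin 5 → ℝ)
    (h0 : ∀ k, u k = 0 ∨ u k ≤ -t) (h1 : ∀ k, u k = -a k ∨ -a k + t ≤ u k) :
    ∫ U in box a, phi t u U ≤ (7 / 9) ^ 7 * ∫ U in box a, eta t u U := by
  rw [← integral_indicator (measurableSet_box a), ← integral_indicator (measurableSet_box a)]
  set F : (Fin 5 → ℝ) → ℝ := (box a).indicator (eta t u) with hF
  have hFint : Integrable F := (integrableOn_box (continuous_eta t u) a).integrable_indicator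
    (measurableSet_box a)
  have key : ∀ U, (box a).indicator (phi t u) U ≤ 49 / 81 * F (u + (9 / 7 : ℝ) • (U - u)) := by
    intro U
    have hFnn : 0 ≤ F (u + (9 / 7 : ℝ) • (U - u)) :=
      Set.indicator_nonneg (fun _ _ => eta_nonneg _ _ _) _
    by_cases hU : U ∈ box a
    swap
    · rw [Set.indicator_of_notMem hU]; positivity
    rw [Set.indicator_of_mem hU]
    by_cases hpos : 2 * t - Bc - d2 U u ≤ 0
    · rw [phi, max_eq_left hpos]; positivity
    rw [not_le] at hpos
    set V := u + (9 / 7 : ℝ) • (U - u) with hV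
    have hVk : ∀ k, V k = u k + 9 / 7 * (U k - u k) := fun k => by
      simp [hV, Pi.add_apply, Pi.smul_apply, Pi.sub_apply, smul_eq_mul]
    have hd : d2 V u = 81 / 49 * d2 U u := by
      simp only [d2, mul_sum]
      refine sum_congr rfl fun k _ => ?_
      rw [hVk]; ring
    have hBc : Bc = 113 / 81 := rfl
    have hdt : d2 V u ≤ t ^ 2 := by
      rw [hd]
      rw [hBc] at hpos
      nlinarith [mul_nonneg (sub_nonneg.2 ht1) (by linarith : (0 : ℝ) ≤ 113 - 49 * t)]
    have habs : ∀ k, |V k - u k| ≤ t := fun k => by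
      have h2 := le_d2 V u k
      exact abs_le_of_sq_le_sq (h2.trans hdt) ht.le
    have hVbox : V ∈ box a := by
      rw [mem_box] at hU ⊢
      intro k
      have h2 := abs_le.1 (habs k)
      constructor
      · rcases h1 k with h3 | h3
        · rw [hVk, h3]; linarith [(hU k).1]
        · linarith
      · rcases h0 k with h3 | h3
        · rw [hVk, h3]; linarith [(hU k).2]
        · linarith
    rw [hF, Set.indicator_of_mem hVbox, phi, max_eq_right hpos.le, eta, hd]
    refine le_trans ?_ (mul_le_mul_of_nonneg_left (le_max_right _ _) (by norm_num))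
    rw [hBc]
    have h5 : (2 - 113 / 81 / t) / (2 - 113 / 81) - 81 / 49 * d2 U u / t
        = 81 / 49 * ((2 * t - 113 / 81 - d2 U u) / t) := by
      field_simp
      ring
    rw [h5, ← mul_assoc]
    norm_num
    rw [hBc] at hpos
    have h6 : 2 * t - 113 / 81 - d2 U u ≤ (2 * t - 113 / 81 - d2 U u) / t := by
      rw [le_div_iff₀ ht]
      nlinarith
    linarith
  have hint2 : Integrable (fun U => 49 / 81 * F (u + (9 / 7 : ℝ) • (U - u))) := by
    have h2 : Integrable (fun z => F (u + z)) := hFint.comp_add_left u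
    have h3 : Integrable (fun z => F (u + (9 / 7 : ℝ) • z)) := h2.comp_smul (by norm_num)
    have h4 : Integrable (fun z => F (u + (9 / 7 : ℝ) • (z - u))) := h3.comp_sub_right u
    exact h4.const_mul _
  have hle : ∫ U, (box a).indicator (phi t u) U ≤ ∫ U, 49 / 81 * F (u + (9 / 7 : ℝ) • (U - u)) := by
    refine integral_mono_of_nonneg ?_ hint2 ?_
    · exact Filter.Eventually.of_forall fun U => Set.indicator_nonneg (fun _ _ => phi_nonneg _ _ _) _
    · exact Filter.Eventually.of_forall key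
  refine hle.trans (le_of_eq ?_)
  rw [integral_const_mul]
  have e1 : ∫ U, F (u + (9 / 7 : ℝ) • (U - u)) = ∫ z, F (u + (9 / 7 : ℝ) • z) :=
    integral_sub_right_eq_self (fun z => F (u + (9 / 7 : ℝ) • z)) u
  have e2 : ∫ z, F (u + (9 / 7 : ℝ) • z) = |((9 / 7 : ℝ) ^ 5)⁻¹| • ∫ z, F (u + z) := by
    have := Measure.integral_comp_smul (volume : Measure (Fin 5 → ℝ)) (fun z => F (u + z)) (9 / 7)
    simpa [Module.finrank_fintype_fun_eq_card] using this
  have e3 : ∫ z, F (u + z) = ∫ z, F z := integral_add_left_eq_self F u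
  rw [e1, e2, e3, smul_eq_mul]
  have : |((9 / 7 : ℝ) ^ 5)⁻¹| = (7 / 9) ^ 5 := by
    rw [abs_of_pos (by positivity)]; norm_num
  rw [this]
  ring

section main
variable {κ : Type*} [Fintype κ]

/-- square of the height of the region over the box -/
noncomputable def Ysq (t : κ → ℝ) (u : κ → Fin 5 → ℝ) (U : Fin 5 → ℝ) : ℝ :=
  Bc + ∑ w, phi (t w) (u w) U

lemma Bc_le_Ysq (t : κ → ℝ) (u : κ → Fin 5 → ℝ) (U : Fin 5 → ℝ) : Bc ≤ Ysq t u U := by
  unfold Ysq
  have : 0 ≤ ∑ w, phi (t w) (u w) U := sum_nonneg fun w _ => phi_nonneg _ _ _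
  linarith

lemma le_Ysq (t : κ → ℝ) (u : κ → Fin 5 → ℝ) (U : Fin 5 → ℝ) (w : κ) :
    2 * t w - d2 U (u w) ≤ Ysq t u U := by
  unfold Ysq
  have h1 : phi (t w) (u w) U ≤ ∑ w, phi (t w) (u w) U :=
    single_le_sum (f := fun w => phi (t w) (u w) U) (fun w _ => phi_nonneg _ _ _) (mem_univ w)
  have h2 : 2 * t w - Bc - d2 U (u w) ≤ phi (t w) (u w) U := le_max_right _ _
  linarith

lemma continuous_Ysq (t : κ → ℝ) (u : κ → Fin 5 → ℝ) : Continuous (Ysq t u) := by
  unfold Ysq
  exact continuous_const.add (continuous_finsetSum _ fun w _ => continuous_phi _ _)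

lemma integral_Ysq_le (a : Fin 5 → ℝ) (ha : ∀ k, 0 ≤ a k) (t : κ → ℝ) (u : κ → Fin 5 → ℝ)
    (ht : ∀ w, 0 < t w) (ht1 : ∀ w, t w ≤ 1)
    (h0 : ∀ w k, u w k = 0 ∨ u w k ≤ -t w) (h1 : ∀ w k, u w k = -a k ∨ -a k + t w ≤ u w k)
    (hsep : ∀ w w', w ≠ w' → 2 * t w * t w' ≤ d2 (u w) (u w')) :
    ∫ U in box a, Ysq t u U ≤ (Bc + (7 / 9) ^ 7) * ∏ k, a k := by
  classical
  have hconst : ∀ c : ℝ, ∫ _ in box a, c = c * ∏ k, a k := by
    intro c
    rw [setIntegral_const, Measure.real, volume_box ha, smul_eq_mul, mul_comm]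
  have hfin : volume (box a) ≠ ⊤ := (isCompact_box a).measure_lt_top.ne
  have e1 : ∫ U in box a, Ysq t u U
      = Bc * ∏ k, a k + ∑ w, ∫ U in box a, phi (t w) (u w) U := by
    unfold Ysq
    rw [integral_add, hconst, integral_finsetSum]
    · exact fun w _ => integrableOn_box (continuous_phi _ _) a
    · exact integrableOn_box continuous_const a
    · exact integrableOn_box (continuous_finsetSum _ fun w _ => continuous_phi _ _) a
  have e2 : ∑ w, ∫ U in box a, phi (t w) (u w) U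
      ≤ (7 / 9) ^ 7 * ∫ U in box a, ∑ w, eta (t w) (u w) U := by
    rw [integral_finsetSum _ fun w _ => integrableOn_box (continuous_eta _ _) a, mul_sum]
    exact sum_le_sum fun w _ => phi_le_eta a (ht w) (ht1 w) (u w) (h0 w) (h1 w)
  have e3 : ∫ U in box a, ∑ w, eta (t w) (u w) U ≤ ∫ _ in box a, (1 : ℝ) := by
    refine integral_mono
      (integrableOn_box (continuous_finsetSum _ fun w _ => continuous_eta _ _) a)
      (integrableOn_box continuous_const a) fun U => ?_
    have hb := blichfeldt (univ.filter fun w => 0 < eta (t w) (u w) U) t u U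
      (fun w _ => ht w) (fun w _ => ht1 w) (fun w _ w' _ h => hsep w w' h)
    refine le_trans (le_of_eq ?_) hb
    rw [← sum_filter_add_sum_filter_not univ (fun w => 0 < eta (t w) (u w) U)]
    have hz : ∑ w ∈ univ.filter (fun w => ¬ 0 < eta (t w) (u w) U), eta (t w) (u w) U = 0 :=
      sum_eq_zero fun w hw => le_antisymm (not_lt.1 (mem_filter.1 hw).2) (eta_nonneg _ _ _)
    rw [hz, add_zero]
    refine sum_congr rfl fun w hw => ?_
    have hw' := (mem_filter.1 hw).2
    unfold eta at hw' ⊢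
    rcases le_total 0 ((2 - Bc / t w) / (2 - Bc) - d2 U (u w) / t w) with h | h
    · rw [max_eq_right h]
    · rw [max_eq_left h] at hw'
      exact absurd hw' (lt_irrefl _)
  rw [hconst, one_mul] at e3
  rw [e1, add_mul]
  have h7 : (0 : ℝ) ≤ (7 / 9) ^ 7 := by positivity
  linarith [mul_le_mul_of_nonneg_left e3 h7]

end main

end Pool.Agent.RA.Cusp
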