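import Pool.Agent.Lib_helper16.RA.Basics
import Pool.Agent.Lib_helper83.RA.Box

/-!
Block E of MP_20f8ce_gt: the Lebesgue measure of the region over a box.
-/

open MeasureTheory Finset

namespace Pool.Agent.RA.Cusp

/-- the function `s^(-1/2)` -/
noncomputable def bb (s : ℝ) : ℝ := (Real.sqrt s)⁻¹

lemma bb_pos {s : ℝ} (hs : 0 < s) : 0 < bb s := inv_pos.2 (Real.sqrt_pos.2 hs)

lemma bb_sq {s : ℝ} (hs : 0 < s) : bb s ^ 2 * s = 1 := by
  rw [bb, inv_pow, Real.sq_sqrt hs.le, inv_mul_cancel₀ hs.ne']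

/-- tangent line inequality for `s^(-5/2)` -/
lemma bb_pow_ge {s β : ℝ} (hs : 0 < s) (hβ : 0 < β) :
    β ^ 5 * (7 / 2 - 5 / 2 * β ^ 2 * s) ≤ bb s ^ 5 := by
  set b := bb s with hb
  have hb0 : 0 < b := bb_pos hs
  have hb1 : b ^ 2 * s = 1 := bb_sq hs
  have h1 : 0 ≤ 2 * b ^ 7 - 7 * b ^ 2 * β ^ 5 + 5 * β ^ 7 := by
    have : 2 * b ^ 7 - 7 * b ^ 2 * β ^ 5 + 5 * β ^ 7
        = (b - β) ^ 2 * (2 * b ^ 5 + 4 * b ^ 4 * β + 6 * b ^ 3 * β ^ 2 + 8 * b ^ 2 * β ^ 3
          + 10 * b * β ^ 4 + 5 * β ^ 5) := by ring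
    rw [this]
    positivity
  have h2 : b ^ 2 * (β ^ 5 * (7 / 2 - 5 / 2 * β ^ 2 * s)) ≤ b ^ 2 * b ^ 5 := by
    have : b ^ 2 * (β ^ 5 * (7 / 2 - 5 / 2 * β ^ 2 * s))
        = 7 / 2 * b ^ 2 * β ^ 5 - 5 / 2 * β ^ 7 * (b ^ 2 * s) := by ring
    rw [this, hb1]
    linarith
  exact le_of_mul_le_mul_left h2 (by positivity)

/-- the inner integral -/
lemma inner_integral {s : ℝ} (hs : 0 < s) :
    ENNReal.ofReal (bb s ^ 5 / 35)
      ≤ ∫⁻ ξ in Set.Ioi (0 : ℝ), ENNReal.ofReal (ξ ^ 5) * ENNReal.ofReal ((1 - ξ ^ 2 * s) / (2 * ξ)) := by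
  set b := bb s with hb
  have hb0 : 0 < b := bb_pos hs
  have hb1 : b ^ 2 * s = 1 := bb_sq hs
  have h1 : ∫⁻ ξ in Set.Ioc 0 b, ENNReal.ofReal ((ξ ^ 4 - ξ ^ 6 * s) / 2)
      ≤ ∫⁻ ξ in Set.Ioi (0 : ℝ), ENNReal.ofReal (ξ ^ 5) *
        ENNReal.ofReal ((1 - ξ ^ 2 * s) / (2 * ξ)) := by
    refine le_trans (setLIntegral_mono' measurableSet_Ioc fun ξ hξ => ?_)
      (lintegral_mono_set fun ξ (hξ : ξ ∈ Set.Ioc 0 b) => hξ.1)
    have hξ0 : 0 < ξ := hξ.1
    rw [← ENNReal.ofReal_mul (by positivity)]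
    refine le_of_eq (congrArg _ ?_)
    field_simp
  refine le_trans (le_of_eq ?_) h1
  have hcont : Continuous fun ξ : ℝ => (ξ ^ 4 - ξ ^ 6 * s) / 2 := by fun_prop
  rw [← ofReal_integral_eq_lintegral_ofReal]
  · rw [← intervalIntegral.integral_of_le hb0.le]
    congr 1
    have : ∀ ξ : ℝ, (ξ ^ 4 - ξ ^ 6 * s) / 2 = ξ ^ 4 * (1 / 2) - ξ ^ 6 * (s / 2) := by
      intro ξ; ring
    simp_rw [this]
    rw [intervalIntegral.integral_sub, intervalIntegral.integral_mul_const,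
      intervalIntegral.integral_mul_const, integral_pow, integral_pow]
    · norm_num
      have : b ^ 7 * s = b ^ 5 := by
        calc b ^ 7 * s = b ^ 5 * (b ^ 2 * s) := by ring
          _ = b ^ 5 := by rw [hb1, mul_one]
      linarith
    · exact (Continuous.intervalIntegrable (by fun_prop) _ _)
    · exact (Continuous.intervalIntegrable (by fun_prop) _ _)
  · exact (hcont.integrableOn_Icc (a := 0) (b := b)).mono_set Set.Ioc_subset_Icc_self
  · refine (ae_restrict_iff' measurableSet_Ioc).2 (Filter.Eventually.of_forall fun ξ hξ => ?_)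
    have h3 : ξ ^ 2 * s ≤ 1 := by
      have : ξ ^ 2 ≤ b ^ 2 := pow_le_pow_left₀ hξ.1.le hξ.2 2
      nlinarith
    have h4 : 0 ≤ ξ ^ 4 * (1 - ξ ^ 2 * s) := mul_nonneg (by positivity) (by linarith)
    show (0 : ℝ) ≤ (ξ ^ 4 - ξ ^ 6 * s) / 2
    nlinarith

/-- the part of the region over the space coordinates -/
noncomputable def Reg (a : Fin 5 → ℝ) (Y : (Fin 5 → ℝ) → ℝ) : Set (M 6) :=
  {y | 0 < y.1 0 ∧ (fun k : Fin 5 => (y.1 0)⁻¹ * y.1 k.succ) ∈ box a ∧
    (y.1 0) ^ 2 * Y (fun k : Fin 5 => (y.1 0)⁻¹ * y.1 k.succ)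
      ≤ 2 * y.2 * y.1 0 - ∑ k : Fin 5, (y.1 k.succ) ^ 2 ∧
    2 * y.2 * y.1 0 - ∑ k : Fin 5, (y.1 k.succ) ^ 2 ≤ 1}

lemma measurableSet_Reg (a : Fin 5 → ℝ) {Y : (Fin 5 → ℝ) → ℝ} (hY : Continuous Y) :
    MeasurableSet (Reg a Y) := by
  have hx0 : Measurable fun y : M 6 => y.1 0 := (measurable_pi_apply 0).comp measurable_fst
  have hxk : ∀ k : Fin 5, Measurable fun y : M 6 => y.1 k.succ := fun k =>
    (measurable_pi_apply _).comp measurable_fst
  have hU : Measurable fun y : M 6 => (fun k : Fin 5 => (y.1 0)⁻¹ * y.1 k.succ) :=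
    measurable_pi_lambda _ fun k => hx0.inv.mul (hxk k)
  have hq : Measurable fun y : M 6 => 2 * y.2 * y.1 0 - ∑ k : Fin 5, (y.1 k.succ) ^ 2 :=
    ((measurable_snd.const_mul 2).mul hx0).sub
      (Finset.measurable_sum _ fun k _ => (hxk k).pow_const 2)
  refine (measurableSet_lt measurable_const hx0).inter ((hU (measurableSet_box a)).inter
    ((measurableSet_le ((hx0.pow_const 2).mul (hY.measurable.comp hU)) hq).inter
      (measurableSet_le hq measurable_const)))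

lemma lintegral_scale (G : (Fin 5 → ℝ) → ENNReal) (hG : Measurable G) {ξ : ℝ} (hξ : 0 < ξ) :
    ∫⁻ X : Fin 5 → ℝ, G (fun k => ξ⁻¹ * X k) = ENNReal.ofReal (ξ ^ 5) * ∫⁻ U, G U := by
  have h1 : Measure.map (fun X : Fin 5 → ℝ => ξ⁻¹ • X) volume
      = ENNReal.ofReal |((ξ⁻¹) ^ (Module.finrank ℝ (Fin 5 → ℝ)))⁻¹| • volume :=
    Measure.map_addHaar_smul volume (inv_ne_zero hξ.ne')
  have h2 : ∫⁻ X : Fin 5 → ℝ, G (fun k => ξ⁻¹ * X k) = ∫⁻ U, G U ∂(Measure.map (fun X : Fin 5 → ℝ => ξ⁻¹ • X)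
      volume) := by
    rw [lintegral_map hG (by fun_prop)]
    rfl
  rw [h2, h1, lintegral_smul_measure, Module.finrank_fintype_fun_eq_card, Fintype.card_fin,
    smul_eq_mul]
  congr 2
  rw [inv_pow, inv_inv, abs_of_pos (by positivity)]

lemma volume_Reg_ge (a : Fin 5 → ℝ) {Y : (Fin 5 → ℝ) → ℝ} (hY : Continuous Y)
    (hpos : ∀ U, 0 < Y U) :
    ∫⁻ U in box a, ENNReal.ofReal (bb (Y U) ^ 5 / 35) ≤ volume (Reg a Y) := by
  -- the slices
  set g : ℝ × (Fin 5 → ℝ) → ENNReal := fun q => Set.indicator (Set.Ioi (0 : ℝ))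
    (fun ξ => Set.indicator (box a) (fun U => ENNReal.ofReal ((1 - ξ ^ 2 * Y U) / (2 * ξ)))
      (fun k => ξ⁻¹ * q.2 k)) q.1 with hg
  have hslice : ∀ p : Fin 6 → ℝ, volume (Prod.mk p ⁻¹' Reg a Y) = g (p 0, fun k => p k.succ) := by
    intro p
    rw [hg]
    by_cases h0 : 0 < p 0
    swap
    · have : Prod.mk p ⁻¹' Reg a Y = ∅ := by
        ext t; simp [Reg, h0]
      rw [this]
      simp [Set.indicator, h0]
    simp only [Set.indicator_of_mem (Set.mem_Ioi.2 h0)]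
    by_cases hU : (fun k : Fin 5 => (p 0)⁻¹ * p k.succ) ∈ box a
    swap
    · have : Prod.mk p ⁻¹' Reg a Y = ∅ := by
        ext t; simp [Reg, hU]
      rw [this, Set.indicator_of_notMem hU, measure_empty]
    rw [Set.indicator_of_mem hU]
    have : Prod.mk p ⁻¹' Reg a Y = Set.Icc
        (((p 0) ^ 2 * Y (fun k : Fin 5 => (p 0)⁻¹ * p k.succ) + ∑ k : Fin 5, (p k.succ) ^ 2)
          / (2 * p 0)) ((1 + ∑ k : Fin 5, (p k.succ) ^ 2) / (2 * p 0)) := by
      ext t
      simp only [Reg, Set.mem_preimage, Set.mem_ofPred_eq, Set.mem_Icc, h0, hU, true_and]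
      rw [div_le_iff₀ (by positivity), le_div_iff₀ (by positivity)]
      constructor
      · rintro ⟨h1, h2⟩; constructor <;> linarith
      · rintro ⟨h1, h2⟩; constructor <;> linarith
    rw [this, Real.volume_Icc]
    congr 1
    field_simp
    ring
  have hgm : Measurable g := by
    rw [hg]
    have h1 : Measurable fun q : ℝ × (Fin 5 → ℝ) => (fun k : Fin 5 => q.1⁻¹ * q.2 k) :=
      measurable_pi_lambda _ fun k =>
        measurable_fst.inv.mul ((measurable_pi_apply k).comp measurable_snd)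
    have h2 : Measurable fun q : ℝ × (Fin 5 → ℝ) =>
        ENNReal.ofReal ((1 - q.1 ^ 2 * Y (fun k : Fin 5 => q.1⁻¹ * q.2 k)) / (2 * q.1)) := by
      refine ENNReal.measurable_ofReal.comp ?_
      refine Measurable.div ?_ (measurable_fst.const_mul 2)
      exact measurable_const.sub ((measurable_fst.pow_const 2).mul (hY.measurable.comp h1))
    have h3 : MeasurableSet {q : ℝ × (Fin 5 → ℝ) | 0 < q.1 ∧
        (fun k : Fin 5 => q.1⁻¹ * q.2 k) ∈ box a} :=
      (measurableSet_lt measurable_const measurable_fst).inter (h1 (measurableSet_box a))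
    convert h2.indicator h3 using 1
    ext q
    by_cases h4 : 0 < q.1 <;> by_cases h5 : (fun k : Fin 5 => q.1⁻¹ * q.2 k) ∈ box a <;>
      simp [Set.indicator, h4, h5]
  have hvol : volume (Reg a Y) = ∫⁻ ξ in Set.Ioi (0 : ℝ), ENNReal.ofReal (ξ ^ 5) *
      ∫⁻ U in box a, ENNReal.ofReal ((1 - ξ ^ 2 * Y U) / (2 * ξ)) := by
    rw [Measure.volume_eq_prod, Measure.prod_apply (measurableSet_Reg a hY)]
    simp_rw [hslice]
    have hmp := volume_preserving_piFinSuccAbove (fun _ : Fin 6 => ℝ) 0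
    have h1 : ∫⁻ p : Fin 6 → ℝ, g (p 0, fun k => p k.succ)
        = ∫⁻ q, g q ∂((volume : Measure ℝ).prod (volume : Measure (Fin 5 → ℝ))) := by
      rw [← Measure.volume_eq_prod, ← hmp.lintegral_comp hgm]
      refine lintegral_congr fun p => ?_
      rfl
    rw [h1, lintegral_prod _ hgm.aemeasurable, ← lintegral_indicator measurableSet_Ioi]
    refine lintegral_congr fun ξ => ?_
    by_cases h0 : 0 < ξ
    swap
    · simp [hg, Set.indicator, h0]
    rw [Set.indicator_of_mem (Set.mem_Ioi.2 h0)]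
    rw [← lintegral_indicator (measurableSet_box a), ← lintegral_scale _ _ h0]
    · refine lintegral_congr fun X => ?_
      rw [hg]
      simp only
      rw [Set.indicator_of_mem (Set.mem_Ioi.2 h0)]
    · refine Measurable.indicator ?_ (measurableSet_box a)
      refine ENNReal.measurable_ofReal.comp ?_
      exact (measurable_const.sub (hY.measurable.const_mul _)).div_const _
  rw [hvol]
  have hswap : ∫⁻ ξ in Set.Ioi (0 : ℝ), ENNReal.ofReal (ξ ^ 5) *
      ∫⁻ U in box a, ENNReal.ofReal ((1 - ξ ^ 2 * Y U) / (2 * ξ))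
      = ∫⁻ U in box a, ∫⁻ ξ in Set.Ioi (0 : ℝ), ENNReal.ofReal (ξ ^ 5) *
        ENNReal.ofReal ((1 - ξ ^ 2 * Y U) / (2 * ξ)) := by
    rw [← lintegral_lintegral_swap]
    · refine lintegral_congr fun ξ => ?_
      rw [lintegral_const_mul']
      exact ENNReal.ofReal_ne_top
    · refine Measurable.aemeasurable ?_
      refine Measurable.mul (ENNReal.measurable_ofReal.comp (measurable_fst.pow_const 5)) ?_
      refine ENNReal.measurable_ofReal.comp ?_
      refine Measurable.div ?_ (measurable_fst.const_mul 2)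
      exact measurable_const.sub ((measurable_fst.pow_const 2).mul
        (hY.measurable.comp measurable_snd))
  rw [hswap]
  exact lintegral_mono fun U => inner_integral (hpos U)

lemma continuous_bb_pow {Y : (Fin 5 → ℝ) → ℝ} (hY : Continuous Y) (hpos : ∀ U, 0 < Y U) :
    Continuous fun U => bb (Y U) ^ 5 / 35 := by
  unfold bb
  refine ((Continuous.inv₀ (Real.continuous_sqrt.comp hY) fun U => ?_).pow 5).div_const _
  exact (Real.sqrt_pos.2 (hpos U)).ne'

/-- the region over an ideal vertex has measure at least `0.065 / 7` -/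
theorem volume_region {κ : Type*} [Fintype κ] (a : Fin 5 → ℝ) (ha : ∀ k, 1 ≤ a k)
    (t : κ → ℝ) (u : κ → Fin 5 → ℝ)
    (ht : ∀ w, 0 < t w) (ht1 : ∀ w, t w ≤ 1)
    (h0 : ∀ w k, u w k = 0 ∨ u w k ≤ -t w) (h1 : ∀ w k, u w k = -a k ∨ -a k + t w ≤ u w k)
    (hsep : ∀ w w', w ≠ w' → 2 * t w * t w' ≤ d2 (u w) (u w')) :
    ENNReal.ofReal 0.065 ≤ 7 * volume (Reg a (Ysq t u)) := by
  have ha0 : ∀ k, 0 ≤ a k := fun k => by linarith [ha k]
  have hY := continuous_Ysq t u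
  have hBc : (0 : ℝ) < Bc := by unfold Bc; norm_num
  have hpos : ∀ U, 0 < Ysq t u U := fun U => lt_of_lt_of_le hBc (Bc_le_Ysq t u U)
  have hA : (1 : ℝ) ≤ ∏ k, a k := by
    have := Finset.prod_le_prod (s := (univ : Finset (Fin 5))) (f := fun _ => (1 : ℝ)) (g := a)
      (fun _ _ => zero_le_one) (fun k _ => ha k)
    simpa using this
  have hfin : volume (box a) ≠ ⊤ := (isCompact_box a).measure_lt_top.ne
  have hconst : ∀ c : ℝ, ∫ _ in box a, c = c * ∏ k, a k := by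
    intro c
    rw [setIntegral_const, Measure.real, volume_box ha0, smul_eq_mul, mul_comm]
  have h2 := volume_Reg_ge a hY hpos
  have h3 : ENNReal.ofReal (∫ U in box a, bb (Ysq t u U) ^ 5 / 35)
      = ∫⁻ U in box a, ENNReal.ofReal (bb (Ysq t u U) ^ 5 / 35) := by
    refine ofReal_integral_eq_lintegral_ofReal
      (integrableOn_box (continuous_bb_pow hY hpos) a) (Filter.Eventually.of_forall fun U => ?_)
    have := bb_pos (hpos U)
    show (0 : ℝ) ≤ _
    positivity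
  have h4 : (0.065 : ℝ) ≤ 7 * ∫ U in box a, bb (Ysq t u U) ^ 5 / 35 := by
    have hβ : (0 : ℝ) < 0.7987 := by norm_num
    have h5 : ∫ U in box a, ((0.7987 : ℝ) ^ 5 * (7 / 2) - (0.7987 : ℝ) ^ 5 * (5 / 2 * 0.7987 ^ 2) *
        Ysq t u U) / 35 ≤ ∫ U in box a, bb (Ysq t u U) ^ 5 / 35 := by
      refine integral_mono ?_ (integrableOn_box (continuous_bb_pow hY hpos) a) fun U => ?_
      · exact integrableOn_box (by fun_prop) a
      · have := bb_pow_ge (hpos U) hβ
        show _ ≤ bb (Ysq t u U) ^ 5 / 35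
        rw [div_le_div_iff_of_pos_right (by norm_num)]
        refine le_trans (le_of_eq ?_) this
        ring
    have h6 := integral_Ysq_le a ha0 t u ht ht1 h0 h1 hsep
    have h7 : ∫ U in box a, ((0.7987 : ℝ) ^ 5 * (7 / 2) - (0.7987 : ℝ) ^ 5 * (5 / 2 * 0.7987 ^ 2) *
        Ysq t u U) / 35 = ((0.7987 : ℝ) ^ 5 * (7 / 2) * ∏ k, a k
          - (0.7987 : ℝ) ^ 5 * (5 / 2 * 0.7987 ^ 2) * ∫ U in box a, Ysq t u U) / 35 := by
      rw [integral_div, integral_sub, hconst, integral_const_mul]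
      · exact integrableOn_box continuous_const a
      · exact integrableOn_box (by fun_prop) a
    rw [h7] at h5
    unfold Bc at h6
    set A := ∏ k, a k with hAdef
    set I := ∫ U in box a, Ysq t u U with hI
    norm_num at h5 h6 ⊢
    nlinarith
  calc ENNReal.ofReal 0.065 ≤ ENNReal.ofReal (7 * ∫ U in box a, bb (Ysq t u U) ^ 5 / 35) :=
        ENNReal.ofReal_le_ofReal h4
    _ = 7 * ENNReal.ofReal (∫ U in box a, bb (Ysq t u U) ^ 5 / 35) := by
        rw [ENNReal.ofReal_mul (by norm_num)]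
        norm_num
    _ ≤ 7 * volume (Reg a (Ysq t u)) := by
        rw [h3]
        gcongr

end Pool.Agent.RA.Cusp
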